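import Mathlib
import Pool.Agent.H57R3.VJ.O

/-!
Counting integral points on the C-pairs `(P^n, sum (1 - 1/m_i) H_i)` over a number field, for hyperplanes in
general position, uniformly in the multiplicities. For all the pairs of general type together, the integral
points have a counting function smaller by a power than that of all rational points.
-/

set_option autoImplicit false

open NumberField Height Finset LinearAlgebra.Projectivization
open scoped Classical

namespace Pool.Agent.Results.MP_464c42_nt.IntegralPointsCount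

open Pool.Agent.H57R3.VJ

/-- the `K`-points of height at most `B` off the hyperplanes that are integral outside `S` with respect to
some multiplicities `m` which satisfy the condition `q` -/
def CPts {K : Type*} [Field K] [NumberField K] {n r : ℕ} (S : Finset (FinitePlace K))
    (a : Fin r → Fin (n + 1) → K) (q : (Fin r → ℕ∞) → Prop) (B : ℝ) : Set (ℙ K (Fin (n + 1) → K)) :=
  {P | (∀ i, lin (a i) P.rep ≠ 0) ∧ P.mulHeight ≤ B ∧
    ∃ m : Fin r → ℕ∞, (∀ i, 1 ≤ m i) ∧ q m ∧ CInt S a m P.rep}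

theorem result (K : Type*) [Field K] [NumberField K] (n r : ℕ) (hr : n + 1 ≤ r)
    (a : Fin r → Fin (n + 1) → K)
    (ha : ∀ I : Finset (Fin r), I.card = n + 1 → LinearIndependent K (fun i : I => a i))
    (S : Finset (FinitePlace K)) (δ : ℝ) (hδ : 0 < δ) :
    (∀ κ : ℝ, 0 ≤ κ → ∃ M : ℝ, ∀ B : ℝ, 1 ≤ B →
      (CPts S a (fun m => ∃ I : Finset (Fin r), I.card = n + 1 ∧ ∑ i ∈ I, wt (m i) ≤ κ) B).Finite ∧
      ((CPts S a (fun m => ∃ I : Finset (Fin r), I.card = n + 1 ∧ ∑ i ∈ I, wt (m i) ≤ κ) B).ncard : ℝ) ≤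
        M * B ^ (κ + δ)) ∧
    (∃ M : ℝ, ∀ B : ℝ, 1 ≤ B →
      (CPts S a (fun m => (n : ℝ) + 1 < ∑ i, (1 - wt (m i))) B).Finite ∧
      ((CPts S a (fun m => (n : ℝ) + 1 < ∑ i, (1 - wt (m i))) B).ncard : ℝ) ≤
        M * B ^ (((n : ℝ) + 1) * (1 - ((n : ℝ) + 1) / r) + δ)) := by
  have hr0 : (0 : ℝ) < r := by exact_mod_cast (by omega : 0 < r)
  have hrn : (n : ℝ) + 1 ≤ r := by exact_mod_cast hr
  have key : ∀ (q : (Fin r → ℕ∞) → Prop) (κ : ℝ), 0 ≤ κ →
      (∀ m, q m → ∃ I : Finset (Fin r), I.card = n + 1 ∧ ∑ i ∈ I, wt (m i) ≤ κ) →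
      ∃ M : ℝ, ∀ B : ℝ, 1 ≤ B → (CPts S a q B).Finite ∧ ((CPts S a q B).ncard : ℝ) ≤ M * B ^ (κ + δ) := by
    intro q κ hκ hq
    obtain ⟨M, hM⟩ := camp_count (K := K) (a := a) ha hr S κ hκ hδ
    refine ⟨M, fun B hB => ?_⟩
    apply fin_of_bdd
    intro F hF
    apply hM B hB F
    intro P hP
    obtain ⟨g1, g2, m, g3, g4, g5⟩ := hF hP
    have e : P.mulHeight = mulHeight P.rep := by
      conv_lhs => rw [← P.mk_rep]
      rw [Projectivization.mulHeight_mk]
    rw [e] at g2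
    exact ⟨g1, g2, m, g3, hq m g4, g5⟩
  refine ⟨fun κ hκ => key _ κ hκ fun m hm => hm, key _ _ ?_ fun m hm => ?_⟩
  · apply mul_nonneg (by positivity)
    rw [sub_nonneg, div_le_one hr0]
    exact hrn
  · obtain ⟨I, hI, hle⟩ := avg_wt hr m (θ := (r : ℝ) - (n + 1)) (by
      rw [sum_sub_distrib, sum_const, card_univ, Fintype.card_fin, nsmul_eq_mul, mul_one] at hm
      linarith)
    refine ⟨I, hI, hle.trans (le_of_eq ?_)⟩
    field_simp

end Pool.Agent.Results.MP_464c42_nt.IntegralPointsCount
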